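import Pool.Agent.SGB.Stmts

/-!
Squad SGB, row MAS.
-/

set_option autoImplicit false

open Finset
open scoped Pointwise

namespace Pool.Agent.SGB.H81

universe u

variable {H : Type u} [AddCommGroup H] [Fintype H]

theorem cd_eq_card (A : AddSubgroup H) [DecidablePred (fun z => z ∈ A)] :
    cd A = ((univ.filter fun z : H => z ∈ A).card : ℝ) := by
  unfold cd
  congr 1
  rw [← Fintype.card_subtype]
  exact Nat.card_eq_fintype_card

theorem sum_pair (A B : AddSubgroup H) [DecidablePred (fun z => z ∈ A)]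
    [DecidablePred (fun z => z ∈ B)] (a b : ℝ) :
    ∑ z : H, (if z ∈ A then a else 0) * (if z ∈ B then b else 0) = a * b * cd (A ⊓ B) := by
  classical
  rw [cd_eq_card (A ⊓ B), Finset.card_filter]
  push_cast
  rw [Finset.mul_sum]
  refine Finset.sum_congr rfl fun z _ => ?_
  by_cases h1 : z ∈ A
  · by_cases h2 : z ∈ B
    · rw [if_pos h1, if_pos h2, if_pos (AddSubgroup.mem_inf.2 ⟨h1, h2⟩), mul_one]
    · rw [if_neg h2, if_neg (fun h => h2 (AddSubgroup.mem_inf.1 h).2), mul_zero, mul_zero]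
  · rw [if_neg h1, if_neg (fun h => h1 (AddSubgroup.mem_inf.1 h).1), zero_mul, mul_zero]

/-- the square of a sum over subgroups -/
theorem sum_sq {ι : Type} [Fintype ι] (Z : ι → AddSubgroup H)
    [∀ k, DecidablePred (fun z => z ∈ Z k)] (v : ι → ℝ) :
    ∑ z : H, (∑ k, if z ∈ Z k then v k else 0) ^ 2 = ∑ k, ∑ l, v k * v l * cd (Z k ⊓ Z l) := by
  have h1 : ∀ z : H, (∑ k, if z ∈ Z k then v k else 0) ^ 2 =
      ∑ k, ∑ l, (if z ∈ Z k then v k else 0) * (if z ∈ Z l then v l else 0) := by
    intro z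
    rw [sq, Finset.sum_mul_sum]
  rw [Finset.sum_congr rfl fun z _ => h1 z, Finset.sum_comm]
  refine Finset.sum_congr rfl fun k _ => ?_
  rw [Finset.sum_comm]
  refine Finset.sum_congr rfl fun l _ => ?_
  exact sum_pair (Z k) (Z l) (v k) (v l)

theorem mas : MASStmt.{u} := by
  classical
  intro H _ _ ι _ S
  refine ⟨?_, ?_⟩
  · exact sum_sq S (uu S)
  · intro Bd
    rw [Finset.sum_comm]
    refine Finset.sum_congr rfl fun k _ => ?_
    rw [Finset.sum_comm]
    refine Finset.sum_congr rfl fun l _ => ?_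
    by_cases hb : Bd k l
    · rw [if_pos hb]
      have h := sum_pair (S k) (S l) (uu S k) (uu S l)
      show _ = uu S k * uu S l * cd (S k ⊓ S l)
      rw [← h]
      refine Finset.sum_congr rfl fun z _ => ?_
      by_cases h1 : z ∈ S k
      · by_cases h2 : z ∈ S l
        · rw [if_pos ⟨hb, h1, h2⟩, if_pos h1, if_pos h2]
        · rw [if_neg (fun h => h2 h.2.2), if_neg h2, mul_zero]
      · rw [if_neg (fun h => h1 h.2.1), if_neg h1, zero_mul]
    · rw [if_neg hb]
      refine Finset.sum_eq_zero fun z _ => ?_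
      rw [if_neg (fun h => hb h.1)]

end Pool.Agent.SGB.H81
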