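import Pool.Agent.Helper81_SGB.MAS

/-!
Squad SGB, row MNA.
-/

set_option autoImplicit false

open Finset
open scoped Pointwise

namespace Pool.Agent.SGB.H81

universe u

theorem cd_pos {H : Type u} [AddCommGroup H] [Finite H] (A : AddSubgroup H) : 0 < cd A := by
  unfold cd
  exact_mod_cast Nat.card_pos

theorem nn_pos {H : Type u} [AddCommGroup H] [Finite H] : 0 < nn H := by
  unfold nn
  exact_mod_cast Nat.card_pos

theorem pp_nonneg {H : Type u} [AddCommGroup H] {ι : Type} (S : ι → AddSubgroup H) (k l : ι) :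
    0 ≤ pp S k l := by
  unfold pp uu cd
  positivity

theorem pp_sq {H : Type u} [AddCommGroup H] [Finite H] {ι : Type} (S : ι → AddSubgroup H)
    (k l : ι) : pp S k l ^ 2 = cd (S k ⊓ S l) ^ 2 / (cd (S k) * cd (S l)) := by
  unfold pp uu
  have h1 := cd_pos (S k)
  have h2 := cd_pos (S l)
  rw [mul_pow, mul_pow, div_pow, div_pow, Real.sq_sqrt h1.le, Real.sq_sqrt h2.le]
  field_simp

open Classical in
theorem mna (hPIN : PINStmt.{u}) (hCLO : CLOStmt.{u}) : MNAStmt.{u} := by
  intro H _ _ ι _ S T G hST hG hgood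
  have hN : 0 < nn H := nn_pos
  set n : ℝ := (Fintype.card ι : ℝ) with hn
  have hn0 : 0 ≤ n := Nat.cast_nonneg _
  set a : ℝ := nn H / G ^ 2 with ha
  have ha0 : 0 < a := by positivity
  -- the lower bound for the subgroups Z
  have hZ : ∀ k h, nn H ≤ G * kk S T k h → nn H ≤ G * tt S T k h →
      cd (S k) * a ≤ cd (zz S T k h) := by
    intro k h h1 h2
    have h3 := (hPIN H ι S T hST k h).2.2.2.2.1
    have h4 : nn H / G ≤ kk S T k h := by
      rw [div_le_iff₀ hG]
      linarith [mul_comm G (kk S T k h)]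
    have h5 : nn H / G ≤ tt S T k h := by
      rw [div_le_iff₀ hG]
      linarith [mul_comm G (tt S T k h)]
    have h6 : nn H / G * (nn H / G) ≤ kk S T k h * tt S T k h :=
      mul_le_mul h4 h5 (by positivity) (le_trans (by positivity) h4)
    have h7 : cd (S k) * (nn H / G * (nn H / G)) ≤ cd (zz S T k h) * nn H :=
      (mul_le_mul_of_nonneg_left h6 (cd_pos (S k)).le).trans h3
    have h8 : cd (S k) * a * nn H ≤ cd (zz S T k h) * nn H := by
      refine le_trans (le_of_eq ?_) h7
      rw [ha]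
      field_simp
    exact le_of_mul_le_mul_right h8 hN
  have hZZ : ∀ k l h, (nn H ≤ G * kk S T k h ∧ nn H ≤ G * tt S T k h) →
      (nn H ≤ G * kk S T l h ∧ nn H ≤ G * tt S T l h) →
      cd (S k ⊓ S l) * a ^ 2 ≤ cd (zz S T k h ⊓ zz S T l h) := by
    intro k l h h1 h2
    have e1 := hZ k h h1.1 h1.2
    have e2 := hZ l h h2.1 h2.2
    have p1 := (hPIN H ι S T hST k h).2.2.2.2.2.2.2.2.2
    have p2 := (hPIN H ι S T hST l h).2.2.2.2.2.2.2.2.2
    have h3 := hCLO H (S k) (S l) (zz S T k h) (zz S T l h) p1 p2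
    have q1 := cd_pos (S k)
    have q2 := cd_pos (S l)
    have q3 := cd_pos (S k ⊓ S l)
    have h4 : (cd (S k) * a) * (cd (S l) * a) ≤ cd (zz S T k h) * cd (zz S T l h) :=
      mul_le_mul e1 e2 (by positivity) (cd_pos _).le
    have h5 : cd (S k ⊓ S l) * a ^ 2 * (cd (S k) * cd (S l)) ≤
        cd (zz S T k h ⊓ zz S T l h) * (cd (S k) * cd (S l)) := by
      calc cd (S k ⊓ S l) * a ^ 2 * (cd (S k) * cd (S l)) =
          cd (S k ⊓ S l) * ((cd (S k) * a) * (cd (S l) * a)) := by ring
        _ ≤ cd (S k ⊓ S l) * (cd (zz S T k h) * cd (zz S T l h)) :=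
            mul_le_mul_of_nonneg_left h4 q3.le
        _ ≤ _ := h3
    exact le_of_mul_le_mul_right h5 (by positivity)
  refine ⟨?_, ?_, ?_⟩
  · -- part 1
    have h1 : ∀ h : ι, ∑ z : H, (∑ k, if z ∈ zz S T k h then uu S k else 0) ^ 2 =
        ∑ k, ∑ l, uu S k * uu S l * cd (zz S T k h ⊓ zz S T l h) :=
      fun h => sum_sq (fun k => zz S T k h) (uu S)
    have key : ∑ z : H, ∑ h, (∑ k, if z ∈ zz S T k h then uu S k else 0) ^ 2 =
        ∑ k, ∑ l, ∑ h, uu S k * uu S l * cd (zz S T k h ⊓ zz S T l h) := by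
      rw [Finset.sum_comm, Finset.sum_congr rfl fun h _ => h1 h, Finset.sum_comm]
      refine Finset.sum_congr rfl fun k _ => ?_
      rw [Finset.sum_comm]
    rw [key, Finset.mul_sum]
    refine Finset.sum_le_sum fun k _ => ?_
    rw [Finset.mul_sum]
    refine Finset.sum_le_sum fun l _ => ?_
    -- fixed pair k l
    set A := univ.filter fun h => nn H ≤ G * kk S T k h ∧ nn H ≤ G * tt S T k h with hA
    set B := univ.filter fun h => nn H ≤ G * kk S T l h ∧ nn H ≤ G * tt S T l h with hB
    have hAB : n / 2 ≤ ((A ∩ B).card : ℝ) := by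
      have c1 := hgood k
      have c2 := hgood l
      have c3 : A.card + B.card ≤ Fintype.card ι + (A ∩ B).card := by
        rw [← Finset.card_union_add_card_inter]
        exact Nat.add_le_add_right (Finset.card_le_univ _) _
      have c4 : (A.card : ℝ) + B.card ≤ n + (A ∩ B).card := by
        rw [hn]
        exact_mod_cast c3
      linarith
    have hu : ∀ i, 0 ≤ uu S i := by
      intro i
      unfold uu
      positivity
    have h2 : ∀ h ∈ A ∩ B, pp S k l * a ^ 2 ≤
        uu S k * uu S l * cd (zz S T k h ⊓ zz S T l h) := by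
      intro h hh
      rw [Finset.mem_inter, hA, hB, Finset.mem_filter, Finset.mem_filter] at hh
      have h3 := hZZ k l h hh.1.2 hh.2.2
      have h4 : 0 ≤ uu S k * uu S l := mul_nonneg (hu k) (hu l)
      calc pp S k l * a ^ 2 = uu S k * uu S l * (cd (S k ⊓ S l) * a ^ 2) := by
            unfold pp
            ring
        _ ≤ _ := mul_le_mul_of_nonneg_left h3 h4
    calc 1 / 2 * a ^ 2 * n * pp S k l = n / 2 * (pp S k l * a ^ 2) := by ring
      _ ≤ ((A ∩ B).card : ℝ) * (pp S k l * a ^ 2) :=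
          mul_le_mul_of_nonneg_right hAB (mul_nonneg (pp_nonneg S k l) (by positivity))
      _ = ∑ _h ∈ A ∩ B, pp S k l * a ^ 2 := by rw [Finset.sum_const, nsmul_eq_mul]
      _ ≤ ∑ h ∈ A ∩ B, uu S k * uu S l * cd (zz S T k h ⊓ zz S T l h) :=
          Finset.sum_le_sum h2
      _ ≤ ∑ h, uu S k * uu S l * cd (zz S T k h ⊓ zz S T l h) := by
          refine Finset.sum_le_sum_of_subset_of_nonneg (Finset.subset_univ _) fun h _ _ => ?_
          exact mul_nonneg (mul_nonneg (hu k) (hu l)) (cd_pos _).le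
  · -- part 2
    set m : ℝ := Real.sqrt ((nn H / G) ^ 3) / nn H with hm
    have hm0 : 0 ≤ m := by positivity
    have h1 : ∀ k l, (nn H ≤ G * kk S T k l ∧ nn H ≤ G * tt S T k l) → m ≤ pp S k l := by
      intro k l hkl
      have h3 := (hPIN H ι S T hST k l).2.2.2.1
      have h4 : nn H / G ≤ kk S T k l := by
        rw [div_le_iff₀ hG]
        linarith [mul_comm G (kk S T k l), hkl.1]
      have h5 : nn H / G ≤ tt S T k l := by
        rw [div_le_iff₀ hG]
        linarith [mul_comm G (tt S T k l), hkl.2]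
      have h6 : (nn H / G) ^ 3 ≤ tt S T k l ^ 2 * kk S T k l := by
        have h7 : (nn H / G) ^ 2 ≤ tt S T k l ^ 2 := pow_le_pow_left₀ (by positivity) h5 2
        calc (nn H / G) ^ 3 = (nn H / G) ^ 2 * (nn H / G) := by ring
          _ ≤ tt S T k l ^ 2 * kk S T k l := mul_le_mul h7 h4 (by positivity) (by positivity)
      have q1 := cd_pos (S k)
      have q2 := cd_pos (S l)
      have h8 : m ^ 2 ≤ pp S k l ^ 2 := by
        rw [pp_sq, hm, div_pow, Real.sq_sqrt (by positivity), div_le_div_iff₀ (by positivity)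
          (by positivity)]
        calc (nn H / G) ^ 3 * (cd (S k) * cd (S l)) ≤
            tt S T k l ^ 2 * kk S T k l * (cd (S k) * cd (S l)) :=
              mul_le_mul_of_nonneg_right h6 (by positivity)
          _ ≤ _ := h3
      exact (sq_le_sq₀ hm0 (pp_nonneg S k l)).1 h8
    have h2 : ∀ k, 3 / 4 * n * m ≤ ∑ l, pp S k l := by
      intro k
      set A := univ.filter fun h => nn H ≤ G * kk S T k h ∧ nn H ≤ G * tt S T k h with hA
      calc 3 / 4 * n * m ≤ (A.card : ℝ) * m := mul_le_mul_of_nonneg_right (hgood k) hm0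
        _ = ∑ _l ∈ A, m := by rw [Finset.sum_const, nsmul_eq_mul]
        _ ≤ ∑ l ∈ A, pp S k l := by
            refine Finset.sum_le_sum fun l hl => ?_
            rw [hA, Finset.mem_filter] at hl
            exact h1 k l hl.2
        _ ≤ ∑ l, pp S k l :=
            Finset.sum_le_sum_of_subset_of_nonneg (Finset.subset_univ _)
              fun l _ _ => pp_nonneg S k l
    calc 3 / 4 * n ^ 2 * m = ∑ _k : ι, 3 / 4 * n * m := by
          rw [Finset.sum_const, nsmul_eq_mul, Finset.card_univ, ← hn]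
          ring
      _ ≤ _ := Finset.sum_le_sum fun k _ => h2 k
  · -- part 3
    intro k hk
    have hn1 : 0 < n := by
      rw [hn]
      have : Nonempty ι := ⟨k⟩
      exact_mod_cast Fintype.card_pos
    have h1 : 0 < (univ.filter fun h => nn H ≤ G * kk S T k h ∧ nn H ≤ G * tt S T k h).card := by
      have := hgood k
      have h2 : (0:ℝ) <
          ((univ.filter fun h => nn H ≤ G * kk S T k h ∧ nn H ≤ G * tt S T k h).card : ℝ) := by
        linarith
      exact_mod_cast h2
    obtain ⟨h, hh⟩ := Finset.card_pos.1 h1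
    rw [Finset.mem_filter] at hh
    have h4 : nn H / G ≤ kk S T k h := by
      rw [div_le_iff₀ hG]
      linarith [mul_comm G (kk S T k h), hh.2.1]
    have h5 : nn H / G ≤ tt S T k h := by
      rw [div_le_iff₀ hG]
      linarith [mul_comm G (tt S T k h), hh.2.2]
    have h6 : nn H / G * (nn H / G) ≤ kk S T k h * tt S T k h :=
      mul_le_mul h4 h5 (by positivity) (le_trans (by positivity) h4)
    have h7 := (hPIN H ι S T hST k h).2.1
    have q1 := cd_pos (S k)
    have h8 : (nn H / G) ^ 2 ≤ cd (S k) ^ 2 := by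
      calc (nn H / G) ^ 2 = nn H / G * (nn H / G) := by ring
        _ ≤ cd (S k) * cd (T k) := h6.trans h7
        _ ≤ cd (S k) * cd (S k) := mul_le_mul_of_nonneg_left hk q1.le
        _ = cd (S k) ^ 2 := by ring
    have h9 : nn H / G ≤ cd (S k) := by
      have h10 : 0 ≤ nn H / G := by positivity
      nlinarith
    rw [div_le_iff₀ hG] at h9
    linarith [mul_comm G (cd (S k))]

end Pool.Agent.SGB.H81
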